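import Pool.Agent.P.MP_c3354e_al.Defs

set_option autoImplicit false

namespace Pool.Agent.P.MP_c3354e_al

/-- Product of two possibly empty factors. -/
def om {A : Type} (mu : A → A → A) : Option A → Option A → Option A
  | none, q => q
  | some a, none => some a
  | some a, some b => some (mu a b)

/-- Value of a possibly empty product: the empty product is read as `z z`. -/
def ov {A : Type} (mu : A → A → A) (z : A) : Option A → A
  | none => mu z z
  | some a => a

/-- The laws used in the proof. -/
structure Laws {A : Type} (ad mu : A → A → A) : Prop where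
  add_assoc : ∀ a b c, ad (ad a b) c = ad a (ad b c)
  add_comm : ∀ a b, ad a b = ad b a
  add_self : ∀ a, ad a a = a
  mul_assoc : ∀ a b c, mu (mu a b) c = mu a (mu b c)
  mul_add : ∀ a b c, mu a (ad b c) = ad (mu a b) (mu a c)
  add_mul : ∀ a b c, mu (ad a b) c = ad (mu a c) (mu b c)
  rect : ∀ (z : A) (p q p' q' : Option A),
    ad (ad (ad (ad z (ov mu z (om mu p q))) (ov mu z (om mu p' q'))) (ov mu z (om mu p' q)))
      (ov mu z (om mu p q')) =
    ad (ad (ad z (ov mu z (om mu p q))) (ov mu z (om mu p' q'))) (ov mu z (om mu p' q))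
  swap : ∀ (x : A) (p q p' q' : Option A),
    ad (ad (ov mu x (om mu (om mu p (some x)) q)) (ov mu x (om mu (om mu p' (some x)) q')))
      (ov mu x (om mu (om mu p (some x)) q')) =
    ad (ov mu x (om mu (om mu p (some x)) q)) (ov mu x (om mu (om mu p' (some x)) q'))

section Model

variable {A : Type} {ad mu : A → A → A}

theorem om_assoc (h : Laws ad mu) (p q r : Option A) :
    om mu (om mu p q) r = om mu p (om mu q r) := by
  rcases p with _ | p <;> rcases q with _ | q <;> rcases r with _ | r <;>
    simp [om, h.mul_assoc]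

theorem om_none (p : Option A) : om mu p none = p := by
  rcases p with _ | p <;> rfl

/-- `u` lies below `z`. -/
def Lw (ad mu : A → A → A) (z : A) (u : Option A) : Prop := ad z (ov mu z u) = z

theorem Lw.rect (h : Laws ad mu) {z : A} {p q p' q' : Option A} (h1 : Lw ad mu z (om mu p q))
    (h2 : Lw ad mu z (om mu p' q')) (h3 : Lw ad mu z (om mu p' q)) :
    Lw ad mu z (om mu p q') := by
  have := h.rect z p q p' q'
  unfold Lw at *
  rwa [h1, h2, h3] at this

theorem ov_ctx (z x y : A) (p q : Option A) :
    ov mu z (om mu (om mu p (some x)) q) = ov mu y (om mu (om mu p (some x)) q) := by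
  rcases p with _ | p <;> rcases q with _ | q <;> rfl

theorem Lw.swap (h : Laws ad mu) {z x : A} {p q p' q' : Option A}
    (h1 : Lw ad mu z (om mu (om mu p (some x)) q))
    (h2 : Lw ad mu z (om mu (om mu p' (some x)) q')) :
    Lw ad mu z (om mu (om mu p (some x)) q') := by
  have h3 := h.swap x p q p' q'
  unfold Lw at *
  rw [ov_ctx z x x] at h1 h2 ⊢
  generalize ov mu x (om mu (om mu p (some x)) q) = a at *
  generalize ov mu x (om mu (om mu p' (some x)) q') = b at *
  generalize ov mu x (om mu (om mu p (some x)) q') = c at *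
  calc ad z c = ad (ad (ad z a) b) c := by rw [h1, h2]
    _ = ad z (ad (ad a b) c) := by simp only [h.add_assoc]
    _ = ad (ad z a) b := by rw [h3, h.add_assoc]
    _ = z := by rw [h1, h2]

theorem ov_ctx_add (h : Laws ad mu) (z x y : A) (p q : Option A) :
    ov mu z (om mu (om mu p (some (ad x y))) q) =
      ad (ov mu z (om mu (om mu p (some x)) q)) (ov mu z (om mu (om mu p (some y)) q)) := by
  rcases p with _ | p <;> rcases q with _ | q <;> simp [om, ov, h.mul_add, h.add_mul]

theorem Lw_add_iff (h : Laws ad mu) (z x y : A) (p q : Option A) :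
    Lw ad mu z (om mu (om mu p (some (ad x y))) q) ↔
      Lw ad mu z (om mu (om mu p (some x)) q) ∧ Lw ad mu z (om mu (om mu p (some y)) q) := by
  unfold Lw
  rw [ov_ctx_add h]
  generalize ov mu z (om mu (om mu p (some x)) q) = a
  generalize ov mu z (om mu (om mu p (some y)) q) = b
  constructor
  · intro h1
    constructor
    · calc ad z a = ad (ad z (ad a b)) a := by rw [h1]
        _ = ad z (ad (ad a a) b) := by
          rw [h.add_assoc, h.add_assoc, h.add_assoc, h.add_comm b a]
        _ = z := by rw [h.add_self, h1]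
    · calc ad z b = ad (ad z (ad a b)) b := by rw [h1]
        _ = ad z (ad a (ad b b)) := by rw [h.add_assoc, h.add_assoc]
        _ = z := by rw [h.add_self, h1]
  · rintro ⟨h1, h2⟩
    rw [← h.add_assoc, h1, h2]

open Classical in
/-- The two-colouring of left factors given by a right factor `r`. -/
noncomputable def kap (ad mu : A → A → A) (z : A) (r p : Option A) : Fin 2 :=
  if Lw ad mu z (om mu p r) then 1 else 0

theorem kap_eq (h : Laws ad mu) {z : A} {p p' q : Option A} (r : Option A)
    (h1 : Lw ad mu z (om mu p q)) (h2 : Lw ad mu z (om mu p' q)) :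
    kap ad mu z r p = kap ad mu z r p' := by
  have : Lw ad mu z (om mu p r) ↔ Lw ad mu z (om mu p' r) :=
    ⟨fun h3 => Lw.rect h h2 h3 h1, fun h3 => Lw.rect h h1 h3 h2⟩
  unfold kap
  rw [this]

theorem Lw_of_kap {z : A} {p p' r : Option A} (h1 : kap ad mu z r p = kap ad mu z r p')
    (h2 : Lw ad mu z (om mu p' r)) : Lw ad mu z (om mu p r) := by
  unfold kap at h1
  rw [if_pos h2] at h1
  by_contra h3
  rw [if_neg h3] at h1
  exact absurd h1 (by decide)

open Classical in
/-- The assignment into `B2` read off from the model. -/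
noncomputable def psi (ad mu : A → A → A) (z : A) (φ : ℕ → A) (r : Option A) (n : ℕ) : B2 :=
  if hx : ∃ p : Option A, ∃ q, Lw ad mu z (om mu (om mu p (some (φ n))) q) then
    some (kap ad mu z r hx.choose, kap ad mu z r (om mu hx.choose (some (φ n))))
  else none

theorem claim1 (h : Laws ad mu) (z : A) (φ : ℕ → A) (r : Option A) (u : Term) :
    ∀ p q : Option A, Lw ad mu z (om mu (om mu p (some (u.eval ad mu φ))) q) →
      u.eval B2.add B2.mul (psi ad mu z φ r) =
        some (kap ad mu z r p, kap ad mu z r (om mu p (some (u.eval ad mu φ)))) := by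
  induction u with
  | var n =>
    intro p q hpq
    simp only [Term.eval] at hpq ⊢
    have hx : ∃ p : Option A, ∃ q, Lw ad mu z (om mu (om mu p (some (φ n))) q) := ⟨p, q, hpq⟩
    obtain ⟨q', hq'⟩ := hx.choose_spec
    have h3 := Lw.swap h hq' hpq
    unfold psi
    rw [dif_pos hx, kap_eq h r h3 hpq]
    rw [om_assoc h] at h3 hpq
    rw [kap_eq h r h3 hpq]
  | add s t ihs iht =>
    intro p q hpq
    simp only [Term.eval] at hpq ⊢
    obtain ⟨h1, h2⟩ := (Lw_add_iff h _ _ _ _ _).mp hpq
    rw [ihs p q h1, iht p q h2, kap_eq h r h1 hpq, kap_eq h r h2 hpq]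
    simp [B2.add]
  | mul s t ihs iht =>
    intro p q hpq
    simp only [Term.eval] at hpq ⊢
    have e1 : om mu p (some (mu (s.eval ad mu φ) (t.eval ad mu φ))) =
        om mu (om mu p (some (s.eval ad mu φ))) (some (t.eval ad mu φ)) := by
      rw [om_assoc h]; rfl
    rw [e1] at hpq ⊢
    rw [iht _ q hpq]
    rw [om_assoc h] at hpq
    rw [ihs p _ hpq]
    simp [B2.mul]

theorem B2.add_ne {x y : B2} (h : B2.add x y ≠ none) : x = y ∧ x ≠ none := by
  revert x y; decide

theorem B2.mul_ne {x y : B2} (h : B2.mul x y ≠ none) : x ≠ none ∧ y ≠ none := by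
  revert x y; decide

theorem B2.mul_some {i j k l : Fin 2} (h : B2.mul (some (i, j)) (some (k, l)) ≠ none) : j = k := by
  revert i j k l; decide

theorem claim2 (h : Laws ad mu) (z : A) (φ : ℕ → A) (u : Term) :
    (∀ r, u.eval B2.add B2.mul (psi ad mu z φ r) ≠ none) →
      ∃ p q : Option A, Lw ad mu z (om mu (om mu p (some (u.eval ad mu φ))) q) := by
  induction u with
  | var n =>
    intro hu
    have h1 := hu none
    simp only [Term.eval] at h1 ⊢
    by_contra hx
    unfold psi at h1
    rw [dif_neg hx] at h1
    exact h1 rfl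
  | add s t ihs iht =>
    intro hu
    simp only [Term.eval] at hu ⊢
    obtain ⟨p1, q1, h1⟩ := ihs fun r => (B2.add_ne (hu r)).2
    obtain ⟨p2, q2, h2⟩ := iht fun r => (B2.add_ne (hu r)).1 ▸ (B2.add_ne (hu r)).2
    have hk : ∀ r, kap ad mu z r p1 = kap ad mu z r p2 ∧
        kap ad mu z r (om mu p1 (some (s.eval ad mu φ))) =
          kap ad mu z r (om mu p2 (some (t.eval ad mu φ))) := by
      intro r
      have := (B2.add_ne (hu r)).1
      rw [claim1 h z φ r s p1 q1 h1, claim1 h z φ r t p2 q2 h2] at this
      simpa using this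
    refine ⟨p1, q2, (Lw_add_iff h _ _ _ _ _).mpr ⟨Lw_of_kap (hk q2).2 h2, ?_⟩⟩
    rw [om_assoc h] at h2 ⊢
    exact Lw_of_kap (hk _).1 h2
  | mul s t ihs iht =>
    intro hu
    simp only [Term.eval] at hu ⊢
    obtain ⟨p1, q1, h1⟩ := ihs fun r => (B2.mul_ne (hu r)).1
    obtain ⟨p2, q2, h2⟩ := iht fun r => (B2.mul_ne (hu r)).2
    have hk : ∀ r, kap ad mu z r (om mu p1 (some (s.eval ad mu φ))) = kap ad mu z r p2 := by
      intro r
      have := hu r
      rw [claim1 h z φ r s p1 q1 h1, claim1 h z φ r t p2 q2 h2] at this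
      exact B2.mul_some this
    refine ⟨p1, q2, ?_⟩
    have e1 : om mu p1 (some (mu (s.eval ad mu φ) (t.eval ad mu φ))) =
        om mu (om mu p1 (some (s.eval ad mu φ))) (some (t.eval ad mu φ)) := by
      rw [om_assoc h]; rfl
    rw [e1, om_assoc h]
    rw [om_assoc h] at h2
    exact Lw_of_kap (hk _) h2

theorem below (h : Laws ad mu) (φ : ℕ → A) {s t : Term} (hst : Holds B2.add B2.mul s t) :
    ad (t.eval ad mu φ) (s.eval ad mu φ) = t.eval ad mu φ := by
  set z := t.eval ad mu φ with hz
  have hzz : Lw ad mu z (om mu (om mu none (some (t.eval ad mu φ))) none) := h.add_self z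
  have hs : ∀ r, s.eval B2.add B2.mul (psi ad mu z φ r) =
      some (kap ad mu z r none, kap ad mu z r (some z)) := by
    intro r
    rw [hst, claim1 h z φ r t none none hzz]
    rfl
  obtain ⟨p, q, hpq⟩ := claim2 h z φ s fun r => by rw [hs r]; simp
  have h1 : Lw ad mu z (om mu (om mu none (some (s.eval ad mu φ))) q) := by
    have h2 := hs (om mu (some (s.eval ad mu φ)) q)
    rw [claim1 h z φ _ s p q hpq] at h2
    have h3 : kap ad mu z (om mu (some (s.eval ad mu φ)) q) none =
        kap ad mu z (om mu (some (s.eval ad mu φ)) q) p := by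
      simp only [Option.some.injEq, Prod.mk.injEq] at h2
      exact h2.1.symm
    rw [om_assoc h] at hpq ⊢
    exact Lw_of_kap h3 hpq
  have h4 := hs none
  rw [claim1 h z φ _ s none q h1] at h4
  simp only [Option.some.injEq, Prod.mk.injEq] at h4
  exact Lw_of_kap h4.2 hzz

theorem model_eq (h : Laws ad mu) (φ : ℕ → A) {s t : Term} (hst : Holds B2.add B2.mul s t) :
    s.eval ad mu φ = t.eval ad mu φ := by
  have h1 := below h φ hst
  have h2 := below h φ (s := t) (t := s) fun ψ => (hst ψ).symm
  rw [← h1, h.add_comm, h2]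

end Model

/-- The optional variable `x_n`. -/
def ovar (b : Bool) (n : ℕ) : Option Term := if b then some (.var n) else none

/-- The rectangle identities. -/
def rectId (b : Bool × Bool × Bool × Bool) : Term × Term :=
  let z := Term.var 0
  let p := ovar b.1 1
  let q := ovar b.2.1 2
  let p' := ovar b.2.2.1 3
  let q' := ovar b.2.2.2 4
  let l := ((z.add (ov .mul z (om .mul p q))).add (ov .mul z (om .mul p' q'))).add
    (ov .mul z (om .mul p' q))
  (l.add (ov .mul z (om .mul p q')), l)

/-- The swap identities. -/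
def swapId (b : Bool × Bool × Bool × Bool) : Term × Term :=
  let x := Term.var 0
  let p := ovar b.1 1
  let q := ovar b.2.1 2
  let p' := ovar b.2.2.1 3
  let q' := ovar b.2.2.2 4
  let l := (ov .mul x (om .mul (om .mul p (some x)) q)).add
    (ov .mul x (om .mul (om .mul p' (some x)) q'))
  (l.add (ov .mul x (om .mul (om .mul p (some x)) q')), l)

/-- The laws of additively idempotent semirings. -/
def aiId : Fin 6 → Term × Term :=
  let x := Term.var 0
  let y := Term.var 1
  let z := Term.var 2
  ![((x.add y).add z, x.add (y.add z)), (x.add y, y.add x), (x.add x, x),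
    ((x.mul y).mul z, x.mul (y.mul z)), (x.mul (y.add z), (x.mul y).add (x.mul z)),
    ((x.add y).mul z, (x.mul z).add (y.mul z))]

/-- The finite basis. -/
def basis : Set (Term × Term) := Set.range aiId ∪ (Set.range rectId ∪ Set.range swapId)

theorem basis_finite : basis.Finite :=
  (Set.finite_range _).union ((Set.finite_range _).union (Set.finite_range _))

theorem laws_B2 : Laws B2.add B2.mul where
  add_assoc := by decide
  add_comm := by decide
  add_self := by decide
  mul_assoc := by decide
  mul_add := by decide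
  add_mul := by decide
  rect := by decide +kernel
  swap := by decide +kernel

theorem basis_holds {A : Type} {ad mu : A → A → A} (h : Laws ad mu) :
    ∀ e ∈ basis, Holds ad mu e.1 e.2 := by
  rintro e (⟨i, rfl⟩ | ⟨⟨b1, b2, b3, b4⟩, rfl⟩ | ⟨⟨b1, b2, b3, b4⟩, rfl⟩) φ
  · fin_cases i
    · exact h.add_assoc _ _ _
    · exact h.add_comm _ _
    · exact h.add_self _
    · exact h.mul_assoc _ _ _
    · exact h.mul_add _ _ _
    · exact h.add_mul _ _ _
  · have := h.rect (φ 0) (if b1 then some (φ 1) else none) (if b2 then some (φ 2) else none)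
      (if b3 then some (φ 3) else none) (if b4 then some (φ 4) else none)
    cases b1 <;> cases b2 <;> cases b3 <;> cases b4 <;> exact this
  · have := h.swap (φ 0) (if b1 then some (φ 1) else none) (if b2 then some (φ 2) else none)
      (if b3 then some (φ 3) else none) (if b4 then some (φ 4) else none)
    cases b1 <;> cases b2 <;> cases b3 <;> cases b4 <;> exact this

/-- Derivability as an equivalence relation. -/
def dSetoid (E : Set (Term × Term)) : Setoid Term :=
  ⟨Derives E, Derives.refl, Derives.symm, Derives.trans⟩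

/-- Addition on the free algebra. -/
def qadd (E : Set (Term × Term)) : Quotient (dSetoid E) → Quotient (dSetoid E) →
    Quotient (dSetoid E) :=
  Quotient.map₂ Term.add fun _ _ h _ _ h' => Derives.add h h'

/-- Multiplication on the free algebra. -/
def qmul (E : Set (Term × Term)) : Quotient (dSetoid E) → Quotient (dSetoid E) →
    Quotient (dSetoid E) :=
  Quotient.map₂ Term.mul fun _ _ h _ _ h' => Derives.mul h h'

theorem eval_mk (E : Set (Term × Term)) (σ : ℕ → Term) (t : Term) :
    t.eval (qadd E) (qmul E) (fun n => Quotient.mk (dSetoid E) (σ n)) =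
      Quotient.mk (dSetoid E) (t.subst σ) := by
  induction t with
  | var n => rfl
  | add s t ihs iht => simp only [Term.eval, ihs, iht]; rfl
  | mul s t ihs iht => simp only [Term.eval, ihs, iht]; rfl

theorem subst_var (t : Term) : t.subst Term.var = t := by
  induction t with
  | var n => rfl
  | add s t ihs iht => unfold Term.subst at *; simp only [Term.eval, ihs, iht]
  | mul s t ihs iht => unfold Term.subst at *; simp only [Term.eval, ihs, iht]

theorem free_holds (E : Set (Term × Term)) : ∀ e ∈ E, Holds (qadd E) (qmul E) e.1 e.2 := by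
  intro e he φ
  have hφ : φ = fun n => Quotient.mk (dSetoid E) (φ n).out := by
    funext n; exact (Quotient.out_eq _).symm
  rw [hφ, eval_mk, eval_mk]
  exact Quotient.sound (Derives.ax e.1 e.2 he _)

/-- An assignment with five prescribed values. -/
def asg {A : Type} (a b c d e : A) : ℕ → A
  | 0 => a
  | 1 => b
  | 2 => c
  | 3 => d
  | _ => e

theorem laws_of_basis {A : Type} {ad mu : A → A → A} (h : ∀ e ∈ basis, Holds ad mu e.1 e.2) :
    Laws ad mu where
  add_assoc a b c := h _ (Or.inl ⟨0, rfl⟩) (asg a b c a a)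
  add_comm a b := h _ (Or.inl ⟨1, rfl⟩) (asg a b a a a)
  add_self a := h _ (Or.inl ⟨2, rfl⟩) (asg a a a a a)
  mul_assoc a b c := h _ (Or.inl ⟨3, rfl⟩) (asg a b c a a)
  mul_add a b c := h _ (Or.inl ⟨4, rfl⟩) (asg a b c a a)
  add_mul a b c := h _ (Or.inl ⟨5, rfl⟩) (asg a b c a a)
  rect z p q p' q' := by
    have := h _ (Or.inr (Or.inl ⟨(p.isSome, q.isSome, p'.isSome, q'.isSome), rfl⟩))
      (asg z (p.getD z) (q.getD z) (p'.getD z) (q'.getD z))
    rcases p with _ | p <;> rcases q with _ | q <;> rcases p' with _ | p' <;>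
      rcases q' with _ | q' <;> exact this
  swap z p q p' q' := by
    have := h _ (Or.inr (Or.inr ⟨(p.isSome, q.isSome, p'.isSome, q'.isSome), rfl⟩))
      (asg z (p.getD z) (q.getD z) (p'.getD z) (q'.getD z))
    rcases p with _ | p <;> rcases q with _ | q <;> rcases p' with _ | p' <;>
      rcases q' with _ | q' <;> exact this

theorem main : FinitelyBased B2.add B2.mul := by
  refine ⟨basis, basis_finite, basis_holds laws_B2, fun s t hst => ?_⟩
  have h := model_eq (laws_of_basis (free_holds basis))
    (fun n => Quotient.mk (dSetoid basis) (Term.var n)) hst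
  rw [eval_mk, eval_mk, subst_var, subst_var] at h
  exact Quotient.exact h

end Pool.Agent.P.MP_c3354e_al
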